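import Pool.Agent.W744.BU.Stm

set_option autoImplicit false

namespace Pool.Agent.W390.BU.POLA

open Pool.Agent.W744.BU
open scoped CStarAlgebra

section one
variable {B : Type} [CStarAlgebra B]

theorem spec_pos {g : B} (hg : IsUnit g) : ∀ x ∈ spectrum ℝ (star g * g), 0 < x := by
  intro x hx
  have h0 : 0 ≤ x := spectrum_star_mul_self_nonneg x hx
  rcases h0.lt_or_eq with h | h
  · exact h
  · exfalso
    rw [← h] at hx
    exact (spectrum.zero_notMem ℝ (hg.star.mul hg)) hx

theorem cont_fun {g : B} (hg : IsUnit g) :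
    ContinuousOn (fun s : ℝ => (Real.sqrt s)⁻¹) (spectrum ℝ (star g * g)) := by
  apply ContinuousOn.inv₀ Real.continuous_sqrt.continuousOn
  intro x hx
  exact (Real.sqrt_pos.mpr (spec_pos hg x hx)).ne'

theorem polF_mem {g : B} (hg : IsUnit g) : polF g ∈ unitary B := by
  have hsa : IsSelfAdjoint (star g * g) := IsSelfAdjoint.star_mul_self g
  set a := star g * g with ha
  have hc := cont_fun hg
  rw [← ha] at hc
  set c := cfc (fun s : ℝ => (Real.sqrt s)⁻¹) a with hcdef
  have hcsa : IsSelfAdjoint c := cfc_predicate _ a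
  have hid : cfc (fun s : ℝ => s) a = a := cfc_id' ℝ a
  have hcac : c * a * c = 1 := by
    have h1 : c * a = cfc (fun s : ℝ => (Real.sqrt s)⁻¹ * s) a := by
      rw [cfc_mul (fun s : ℝ => (Real.sqrt s)⁻¹) (fun s : ℝ => s) a hc continuousOn_id, hid]
    rw [h1, hcdef, ← cfc_mul (fun s : ℝ => (Real.sqrt s)⁻¹ * s) (fun s : ℝ => (Real.sqrt s)⁻¹) a
      (hc.mul continuousOn_id) hc]
    have h2 : Set.EqOn (fun s : ℝ => (Real.sqrt s)⁻¹ * s * (Real.sqrt s)⁻¹) (fun _ => (1 : ℝ))
        (spectrum ℝ a) := by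
      intro x hx
      have hx0 : 0 < x := spec_pos hg x hx
      have hs : 0 < Real.sqrt x := Real.sqrt_pos.mpr hx0
      have hss : Real.sqrt x * Real.sqrt x = x := Real.mul_self_sqrt hx0.le
      show (Real.sqrt x)⁻¹ * x * (Real.sqrt x)⁻¹ = 1
      field_simp
      nlinarith [hss]
    rw [cfc_congr h2]
    exact cfc_const_one ℝ a
  have hcomm : c * a = a * c := (cfc_commute_cfc (fun s : ℝ => (Real.sqrt s)⁻¹) (fun s : ℝ => s) a).eq
    |> fun h => by rw [hid] at h; exact h
  have hcu : IsUnit c := by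
    refine ⟨⟨c, a * c, ?_, ?_⟩, rfl⟩
    · rw [← mul_assoc, hcac]
    · rw [← hcomm, hcac]
  have hu : IsUnit (g * c) := hg.mul hcu
  have h1 : star (g * c) * (g * c) = 1 := by
    rw [star_mul, hcsa.star_eq]
    calc c * star g * (g * c) = c * (star g * g) * c := by noncomm_ring
      _ = 1 := hcac
  have h2 : (g * c) * star (g * c) = 1 := by
    obtain ⟨u, hu⟩ := hu
    rw [← hu] at h1 ⊢
    have h3 : star (u : B) = ((u⁻¹ : Bˣ) : B) := by
      calc star (u : B) = star (u : B) * ((u : B) * ((u⁻¹ : Bˣ) : B)) := by simp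
        _ = (star (u : B) * (u : B)) * ((u⁻¹ : Bˣ) : B) := by rw [mul_assoc]
        _ = ((u⁻¹ : Bˣ) : B) := by rw [h1, one_mul]
    rw [h3]; simp
  show g * c ∈ unitary B
  rw [Unitary.mem_iff]
  exact ⟨h1, h2⟩

theorem polF_unitary {g : B} (hg : g ∈ unitary B) : polF g = g := by
  have h1 : star g * g = 1 := Unitary.star_mul_self_of_mem hg
  unfold polF
  rw [h1, cfc_apply_one]
  simp

end one

theorem map_polF {B C : Type} [CStarAlgebra B] [CStarAlgebra C] (f : B →⋆ₐ[ℂ] C) (g : B)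
    (hg : IsUnit g) : f (polF g) = polF (f g) := by
  have hc := cont_fun hg
  have hf : Continuous (fun x => f x) := map_continuous f
  have h1 : f (cfc (fun s : ℝ => (Real.sqrt s)⁻¹) (star g * g)) =
      cfc (fun s : ℝ => (Real.sqrt s)⁻¹) (f (star g * g)) :=
    StarAlgHomClass.map_cfc (S := ℂ) f (fun s : ℝ => (Real.sqrt s)⁻¹) (star g * g) hc
      hf (IsSelfAdjoint.star_mul_self g) (by
        rw [map_mul, map_star]; exact IsSelfAdjoint.star_mul_self (f g))
  unfold polF
  rw [map_mul, h1, map_mul, map_star]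

theorem main : S_POLA :=
  ⟨fun _ _ _ hg => polF_mem hg, fun _ _ _ hg => polF_unitary hg, fun _ _ _ _ f g hg => map_polF f g hg⟩

end Pool.Agent.W390.BU.POLA
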